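import Pool.Agent.Y924.UF.Stm2

/-! # Project UF, second part: the valuation ring by `(p + 1)`-st powers -/

set_option autoImplicit false

namespace Pool.Agent.Y748.UF

open HahnSeries Pool.Agent.Y924.UF

section

variable {F : Type} [Field F]

theorem ord_mul {x y : LaurentSeries F} (hx : x ≠ 0) (hy : y ≠ 0) :
    (x * y).order = x.order + y.order := by
  apply order_mul_of_ne_zero
  exact mul_ne_zero (leadingCoeff_ne_zero.2 hx) (leadingCoeff_ne_zero.2 hy)

theorem ord_pow {x : LaurentSeries F} (hx : x ≠ 0) (n : ℕ) : (x ^ n).order = n * x.order := by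
  induction n with
  | zero => simp
  | succ n ih =>
    rw [pow_succ, ord_mul (pow_ne_zero n hx) hx, ih]
    push_cast
    ring

theorem mem_iff (z : LaurentSeries F) :
    z ∈ Set.range (algebraMap (PowerSeries F) (LaurentSeries F)) ↔
      ∀ n : ℤ, n < 0 → z.coeff n = 0 := by
  constructor
  · rintro ⟨f, rfl⟩ n hn
    rw [LaurentSeries.coe_algebraMap]
    have h := PowerSeries.coeff_coe (f := f) n
    rw [if_pos hn] at h
    exact h
  · intro h
    by_cases hz : z = 0
    · exact ⟨0, by rw [hz, map_zero]⟩
    · have h0 : 0 ≤ z.order := by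
        by_contra hlt
        push Not at hlt
        exact hz (coeff_order_eq_zero.1 (h _ hlt))
      refine ⟨PowerSeries.X ^ z.order.natAbs * z.powerSeriesPart, ?_⟩
      rw [LaurentSeries.coe_algebraMap]
      exact LaurentSeries.X_order_mul_powerSeriesPart (Int.natAbs_of_nonneg h0)

end

theorem t_VAL : S_ROOT → S_VAL := by
  intro hroot p _
  have hp : p.Prime := Fact.out
  have hp2 := hp.two_le
  set t : LaurentSeries (ZMod p) := HahnSeries.single (1 : ℤ) (1 : ZMod p) with ht
  have ht0 : t ≠ 0 := by
    rw [ht]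
    exact single_ne_zero one_ne_zero
  have htord : t.order = 1 := by
    rw [ht, order_single one_ne_zero]
  refine ⟨fun z => ⟨fun hz => ?_, ?_⟩, ?_⟩
  · obtain ⟨f, rfl⟩ := hz
    have hX : t = algebraMap (PowerSeries (ZMod p)) (LaurentSeries (ZMod p)) PowerSeries.X := by
      rw [LaurentSeries.coe_algebraMap, ofPowerSeries_X, ht]
    have h1 : 1 + t * (algebraMap (PowerSeries (ZMod p)) (LaurentSeries (ZMod p)) f) ^ (p + 1) =
        algebraMap (PowerSeries (ZMod p)) (LaurentSeries (ZMod p))
          (1 + PowerSeries.X * f ^ (p + 1)) := by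
      rw [hX, map_add, map_one, map_mul, map_pow]
    obtain ⟨y, hy⟩ := hroot p
      (1 + t * (algebraMap (PowerSeries (ZMod p)) (LaurentSeries (ZMod p)) f) ^ (p + 1)) (by
        rw [h1]
        exact (mem_iff _).1 ⟨_, rfl⟩) (by
        rw [h1, LaurentSeries.coe_algebraMap]
        have h := PowerSeries.coeff_coe (f := (1 + PowerSeries.X * f ^ (p + 1))) 0
        rw [if_neg (lt_irrefl _)] at h
        refine h.trans ?_
        simp)
    exact ⟨y, hy⟩
  · rintro ⟨y, hy⟩
    by_contra hz
    have hz' : ¬ ∀ n : ℤ, n < 0 → z.coeff n = 0 := fun h => hz ((mem_iff z).2 h)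
    push Not at hz'
    obtain ⟨n, hn, hzn⟩ := hz'
    have hz0 : z ≠ 0 := by
      rintro rfl
      simp at hzn
    have hord : z.order < 0 := (order_le_of_coeff_ne_zero hzn).trans_lt hn
    set m := z.order with hm
    set w := t * z ^ (p + 1) with hw
    have hw0 : w ≠ 0 := mul_ne_zero ht0 (pow_ne_zero _ hz0)
    have hword : w.order = 1 + (p + 1 : ℕ) * m := by
      rw [hw, ord_mul ht0 (pow_ne_zero _ hz0), ord_pow hz0, htord]
    have hpR : (3 : ℤ) ≤ ((p + 1 : ℕ) : ℤ) := by
      push_cast
      exact_mod_cast (by omega : 3 ≤ p + 1)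
    have hneg : w.order < 0 := by
      rw [hword]
      nlinarith
    have hc1 : ∀ k : ℤ, k < 0 → (1 + w).coeff k = w.coeff k := by
      intro k hk
      rw [coeff_add, coeff_one, if_neg (by omega), zero_add]
    have h1 : (1 + w).order = w.order := by
      apply le_antisymm
      · apply order_le_of_coeff_ne_zero
        rw [hc1 _ hneg]
        exact fun h => hw0 (coeff_order_eq_zero.1 h)
      · by_contra hlt
        push Not at hlt
        have h2 : (1 + w).coeff (1 + w).order = 0 := by
          rw [hc1 _ (hlt.trans hneg)]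
          exact coeff_eq_zero_of_lt_order hlt
        have h3 := coeff_order_eq_zero.1 h2
        rw [h3, order_zero] at hlt
        omega
    have hy0 : y ≠ 0 := by
      rintro rfl
      rw [zero_pow (by omega)] at hy
      rw [← hy, order_zero] at h1
      omega
    have h4 : ((p + 1 : ℕ) : ℤ) * y.order = 1 + (p + 1 : ℕ) * m := by
      rw [← ord_pow hy0, hy, h1, hword]
    have h5 : ((p + 1 : ℕ) : ℤ) ∣ 1 := ⟨y.order - m, by linarith⟩
    have h6 := Int.le_of_dvd one_pos h5
    omega
  · rintro ⟨s, c, hc, hs⟩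
    have hc0 : c ≠ 0 := by
      rintro rfl
      rw [zero_pow (by omega)] at hc
      exact zero_ne_one hc
    have hs0 : s ≠ 0 := by
      rintro rfl
      rw [zero_pow (by omega), mul_zero] at hs
      exact ht0 hs.symm
    have h1 : ((p - 1 : ℕ) : ℤ) * c.order = 0 := by
      rw [← ord_pow hc0, hc, order_one]
    have h2 : c.order = 0 := by
      rcases mul_eq_zero.1 h1 with h | h
      · have : p - 1 = 0 := by exact_mod_cast h
        omega
      · exact h
    have h3 : t.order = c.order + (p + 1 : ℕ) * s.order := by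
      rw [← ord_pow hs0, ← ord_mul hc0 (pow_ne_zero _ hs0), hs]
    rw [htord, h2, zero_add] at h3
    have h5 : ((p + 1 : ℕ) : ℤ) ∣ 1 := ⟨s.order, h3⟩
    have h6 := Int.le_of_dvd one_pos h5
    push_cast at h6
    omega

end Pool.Agent.Y748.UF
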